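import Mathlib

/-!
# The fixed point property along maximal chains of order relations (MP_eb30e1, Q1)

For `n ≥ 1`, the smallest number of members with the fixed point property in a maximal chain of
order relations on `[n]` is `⌊n/2⌋ + 1`, except that it is `1` for `n = 2`.
-/

namespace Pool.Agent.Results.MP_eb30e1_co.FewestMembers

open Finset

/-- `r` is an order relation: reflexive, antisymmetric and transitive. -/
def IsOrder {α : Type} (r : α → α → Prop) : Prop :=
  (∀ x, r x x) ∧ (∀ x y, r x y → r y x → x = y) ∧ (∀ x y z, r x y → r y z → r x z)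

/-- The fixed point property of the set `α` with the relation `r`: every order preserving map has
a fixed point. -/
def FPP {α : Type} (r : α → α → Prop) : Prop :=
  ∀ f : α → α, (∀ x y, r x y → r (f x) (f y)) → ∃ x, f x = x

/-- `r 0, r 1, …, r T` is a maximal chain of order relations on `α`: it starts at the diagonal,
ends at a linear order, and each step adds exactly one pair. -/
structure IsMaximalChain {α : Type} (T : ℕ) (r : ℕ → α → α → Prop) : Prop where
  order : ∀ i, i ≤ T → IsOrder (r i)
  start : ∀ x y, r 0 x y ↔ x = y
  step : ∀ i, i < T → ∃ a b, ¬ r i a b ∧ ∀ x y, r (i + 1) x y ↔ r i x y ∨ (x = a ∧ y = b)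
  final : ∀ x y, r T x y ∨ r T y x

open Classical in
/-- The number of members with the fixed point property. -/
noncomputable def countFPP {α : Type} (T : ℕ) (r : ℕ → α → α → Prop) : ℕ :=
  ((range (T + 1)).filter (fun i => FPP (r i))).card

/-! ### The lower bound -/

section lower

variable {α : Type} [Fintype α]

/-- A point and its image under a fixed point free order preserving map are incomparable. -/
lemma incomp_of_free {r : α → α → Prop} (hr : IsOrder r) {f : α → α}
    (hf : ∀ x y, r x y → r (f x) (f y)) (hfree : ∀ x, f x ≠ x) (x : α) :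
    ¬ r x (f x) ∧ ¬ r (f x) x := by
  have key : ∀ s : α → α → Prop, IsOrder s → (∀ x y, s x y → s (f x) (f y)) → ¬ s x (f x) := by
    intro s hs hfs hx
    have hmono : ∀ k, s (f^[k] x) (f^[k + 1] x) := by
      intro k
      induction k with
      | zero => simpa using hx
      | succ k ih =>
        rw [Function.iterate_succ_apply' f k x, Function.iterate_succ_apply' f (k + 1) x]
        exact hfs _ _ ih
    have hle : ∀ k l, s (f^[k] x) (f^[k + l] x) := by
      intro k l
      induction l with
      | zero => exact hs.1 _
      | succ l ih => exact hs.2.2 _ _ _ ih (hmono (k + l))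
    obtain ⟨a, b, hab, he⟩ := Finite.exists_ne_map_eq_of_infinite (fun k : ℕ => f^[k] x)
    wlog hlt : a < b generalizing a b
    · exact this b a hab.symm he.symm (by omega)
    have h1 := hmono a
    have h2 := hle (a + 1) (b - (a + 1))
    rw [show a + 1 + (b - (a + 1)) = b by omega] at h2
    have he' : f^[a] x = f^[b] x := he
    rw [← he'] at h2
    have h3 := hs.2.1 _ _ h1 h2
    rw [Function.iterate_succ_apply'] at h3
    exact hfree _ h3.symm
  refine ⟨key r hr hf, fun h => ?_⟩
  refine key (fun x y => r y x) ⟨hr.1, fun x y h1 h2 => hr.2.1 _ _ h2 h1,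
    fun x y z h1 h2 => hr.2.2 _ _ _ h2 h1⟩ (fun x y h => hf _ _ h) h

open Classical in
/-- The pairs of a relation. -/
noncomputable def prs (r : α → α → Prop) : Finset (α × α) := univ.filter (fun p => r p.1 p.2)

lemma mem_prs {r : α → α → Prop} {p : α × α} : p ∈ prs r ↔ r p.1 p.2 := by
  classical
  simp [prs]

variable {T : ℕ} {r : ℕ → α → α → Prop}

lemma card_prs (hr : IsMaximalChain T r) (i : ℕ) (hi : i ≤ T) :
    (prs (r i)).card = Fintype.card α + i := by
  classical
  induction i with
  | zero =>
    have : prs (r 0) = (univ : Finset α).image (fun x => (x, x)) := by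
      ext ⟨x, y⟩
      rw [mem_prs, hr.start]
      simp only [mem_image, mem_univ, true_and, Prod.mk.injEq]
      constructor
      · rintro rfl; exact ⟨x, rfl, rfl⟩
      · rintro ⟨z, rfl, rfl⟩; rfl
    rw [this, card_image_of_injective _ (fun x y h => (Prod.mk.injEq _ _ _ _ ▸ h).1), card_univ]
    rfl
  | succ i ih =>
    obtain ⟨a, b, hab, hs⟩ := hr.step i (by omega)
    have : prs (r (i + 1)) = insert (a, b) (prs (r i)) := by
      ext ⟨x, y⟩
      rw [mem_insert, mem_prs, mem_prs, hs, Prod.mk.injEq]
      tauto
    rw [this, card_insert_of_notMem (by rw [mem_prs]; exact hab), ih (by omega)]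
    ring

omit [Fintype α] in
lemma mono (hr : IsMaximalChain T r) {i j : ℕ} (hij : i ≤ j) (hj : j ≤ T) {x y : α}
    (h : r i x y) : r j x y := by
  induction j, hij using Nat.le_induction with
  | base => exact h
  | succ j hij ih =>
    obtain ⟨a, b, -, hs⟩ := hr.step j (by omega)
    rw [hs]
    exact Or.inl (ih (by omega))

/-- The missing pairs. -/
noncomputable def D (T : ℕ) (r : ℕ → α → α → Prop) (i : ℕ) : Finset (α × α) := by
  classical
  exact prs (r T) \ prs (r i)

lemma mem_D {i : ℕ} {p : α × α} : p ∈ D T r i ↔ r T p.1 p.2 ∧ ¬ r i p.1 p.2 := by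
  classical
  simp [D, mem_prs]

lemma card_D (hr : IsMaximalChain T r) (i : ℕ) (hi : i ≤ T) : (D T r i).card = T - i := by
  classical
  unfold D
  rw [card_sdiff_of_subset, card_prs hr T le_rfl, card_prs hr i hi]
  · omega
  · intro p hp
    rw [mem_prs] at hp ⊢
    exact mono hr hi le_rfl hp

lemma mem_D_of_incomp (hr : IsMaximalChain T r) {i : ℕ} {x y : α}
    (h1 : ¬ r i x y) (h2 : ¬ r i y x) : (x, y) ∈ D T r i ∨ (y, x) ∈ D T r i := by
  rcases hr.final x y with h | h
  · exact Or.inl (mem_D.2 ⟨h, h1⟩)
  · exact Or.inr (mem_D.2 ⟨h, h2⟩)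

lemma not_FPP_iff {β : Type} {s : β → β → Prop} : ¬ FPP s ↔
    ∃ f : β → β, (∀ x y, s x y → s (f x) (f y)) ∧ ∀ x, f x ≠ x := by
  unfold FPP
  push Not
  rfl

open Classical in
lemma cover_univ (hr : IsMaximalChain T r) {i : ℕ} (hi : i ≤ T) (hF : ¬ FPP (r i)) :
    (univ : Finset α) = (D T r i).image Prod.fst ∪ (D T r i).image Prod.snd := by
  obtain ⟨f, hf, hfree⟩ := not_FPP_iff.1 hF
  symm
  rw [eq_univ_iff_forall]
  intro x
  obtain ⟨h1, h2⟩ := incomp_of_free (hr.order i hi) hf hfree x
  rw [mem_union, mem_image, mem_image]
  rcases mem_D_of_incomp hr h1 h2 with h | h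
  · exact Or.inl ⟨_, h, rfl⟩
  · exact Or.inr ⟨_, h, rfl⟩

/-- Members with few missing pairs have the fixed point property. -/
lemma fpp_of_few (hr : IsMaximalChain T r) {i : ℕ} (hi : i ≤ T)
    (h : 2 * (T - i) < Fintype.card α) : FPP (r i) := by
  classical
  by_contra hF
  have h1 := cover_univ hr hi hF
  have h2 : Fintype.card α ≤ _ := (congrArg Finset.card h1).trans_le (card_union_le _ _) |>.trans
    (add_le_add card_image_le card_image_le)
  rw [card_D hr i hi] at h2
  omega

/-- If every point lies in exactly one missing pair, incomparable elements are unique. -/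
lemma unique_partner (hr : IsMaximalChain T r) {i : ℕ} (hi : i ≤ T) (hF : ¬ FPP (r i))
    (h : 2 * (T - i) = Fintype.card α) {x y z : α} (hxy : ¬ r i x y ∧ ¬ r i y x)
    (hxz : ¬ r i x z ∧ ¬ r i z x) : y = z := by
  classical
  have h1 := cover_univ hr hi hF
  have c0 := card_D hr i hi
  have c1 : ((D T r i).image Prod.fst).card ≤ (D T r i).card := card_image_le
  have c2 : ((D T r i).image Prod.snd).card ≤ (D T r i).card := card_image_le
  have c3 : Fintype.card α = ((D T r i).image Prod.fst ∪ (D T r i).image Prod.snd).card := by
    rw [← h1, card_univ]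
  have c4 := card_union_le ((D T r i).image Prod.fst) ((D T r i).image Prod.snd)
  have i1 : Set.InjOn Prod.fst ((D T r i : Finset (α × α)) : Set (α × α)) :=
    card_image_iff.1 (by omega)
  have i2 : Set.InjOn Prod.snd ((D T r i : Finset (α × α)) : Set (α × α)) :=
    card_image_iff.1 (by omega)
  have i3 : Disjoint ((D T r i).image Prod.fst) ((D T r i).image Prod.snd) :=
    card_union_eq_card_add_card.1 (by omega)
  have i4 : ∀ p q : α × α, p ∈ D T r i → q ∈ D T r i → p.1 ≠ q.2 := by
    intro p q hp hq he
    exact disjoint_left.1 i3 (mem_image_of_mem Prod.fst hp) (he ▸ mem_image_of_mem Prod.snd hq)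
  rcases mem_D_of_incomp hr hxy.1 hxy.2 with a | a <;>
    rcases mem_D_of_incomp hr hxz.1 hxz.2 with b | b
  · have := i1 (mem_coe.2 a) (mem_coe.2 b) rfl
    exact (Prod.mk.injEq _ _ _ _ ▸ this).2
  · exact absurd rfl (i4 _ _ a b)
  · exact absurd rfl (i4 _ _ b a)
  · have := i2 (mem_coe.2 a) (mem_coe.2 b) rfl
    exact (Prod.mk.injEq _ _ _ _ ▸ this).1

/-- If the member with `n/2` missing pairs lacks the fixed point property, the one before it has
it. -/
lemma fpp_before (hr : IsMaximalChain T r) {i : ℕ} (hi : i + 1 ≤ T) (hF : ¬ FPP (r (i + 1)))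
    (h : 2 * (T - (i + 1)) = Fintype.card α) : FPP (r i) := by
  obtain ⟨f, hf, hfree⟩ := not_FPP_iff.1 hF
  by_contra hF'
  obtain ⟨g, hg, hgfree⟩ := not_FPP_iff.1 hF'
  have ho := hr.order (i + 1) hi
  have ho' := hr.order i (by omega)
  obtain ⟨a, b, hab, hs⟩ := hr.step i (by omega)
  have huniq := fun {x y z : α} (h1 : ¬ r (i + 1) x y ∧ ¬ r (i + 1) y x)
    (h2 : ¬ r (i + 1) x z ∧ ¬ r (i + 1) z x) => unique_partner hr hi hF h h1 h2
  have hinc := incomp_of_free ho hf hfree
  have hincg := incomp_of_free ho' hg hgfree
  have rab : r (i + 1) a b := (hs a b).2 (Or.inr ⟨rfl, rfl⟩)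
  have hne : a ≠ b := by
    rintro rfl
    exact hab (ho'.1 a)
  -- the partners
  obtain ⟨as, has⟩ : ∃ s, s = f a := ⟨_, rfl⟩
  obtain ⟨bs, hbs⟩ : ∃ s, s = f b := ⟨_, rfl⟩
  have pa : ¬ r (i + 1) a as ∧ ¬ r (i + 1) as a := has ▸ hinc a
  have pb : ¬ r (i + 1) b bs ∧ ¬ r (i + 1) bs b := hbs ▸ hinc b
  have as_ne_b : as ≠ b := by rintro rfl; exact pa.1 rab
  have as_ne_a : as ≠ a := by rintro rfl; exact pa.1 (ho.1 _)
  have bs_ne_b : bs ≠ b := by rintro rfl; exact pb.1 (ho.1 _)
  have bs_ne_a : bs ≠ a := by rintro rfl; exact pb.2 rab
  have r_a_bs : r (i + 1) a bs := by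
    by_contra hn
    by_cases h2 : r (i + 1) bs a
    · exact pb.2 (ho.2.2 _ _ _ h2 rab)
    · have := huniq ⟨pb.2, pb.1⟩ ⟨h2, hn⟩
      exact hne this.symm
  have r_as_bs : r (i + 1) as bs := by
    by_contra hn
    by_cases h2 : r (i + 1) bs as
    · exact pa.1 (ho.2.2 _ _ _ r_a_bs h2)
    · have := huniq ⟨pb.2, pb.1⟩ ⟨h2, hn⟩
      exact as_ne_b this.symm
  have r'_as_bs : r i as bs := by
    rcases (hs as bs).1 r_as_bs with h1 | h1
    · exact h1
    · exact absurd h1.1 as_ne_a
  have g_as : g as = a := by
    have h1 := hincg as
    refine huniq (x := as) ⟨?_, ?_⟩ ⟨pa.2, pa.1⟩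
    · intro h2
      rcases (hs _ _).1 h2 with h3 | h3
      · exact h1.1 h3
      · exact as_ne_a h3.1
    · intro h2
      rcases (hs _ _).1 h2 with h3 | h3
      · exact h1.2 h3
      · exact as_ne_b h3.2
  have g_bs : g bs = b := by
    have h1 := hincg bs
    refine huniq (x := bs) ⟨?_, ?_⟩ ⟨pb.2, pb.1⟩
    · intro h2
      rcases (hs _ _).1 h2 with h3 | h3
      · exact h1.1 h3
      · exact bs_ne_a h3.1
    · intro h2
      rcases (hs _ _).1 h2 with h3 | h3
      · exact h1.2 h3
      · exact bs_ne_b h3.2
  have := hg _ _ r'_as_bs
  rw [g_as, g_bs] at this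
  exact hab this

lemma lower_basic (hr : IsMaximalChain T r) (c : ℕ) (hc : 2 * c < Fintype.card α + 2)
    (hcT : c ≤ T + 1) : c ≤ countFPP T r := by
  classical
  have h1 : ((range c).image (fun k => T - k)).card = c := by
    rw [card_image_of_injOn, card_range]
    intro x hx y hy hxy
    simp only [coe_range, Set.mem_Iio] at hx hy hxy
    omega
  calc c = ((range c).image (fun k => T - k)).card := h1.symm
    _ ≤ countFPP T r := by
      apply card_le_card
      intro i hi
      rw [mem_image] at hi
      obtain ⟨k, hk, rfl⟩ := hi
      rw [mem_range] at hk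
      rw [mem_filter, mem_range]
      refine ⟨by omega, fpp_of_few hr (by omega) (by omega)⟩

lemma lower_even (hr : IsMaximalChain T r) (c : ℕ) (hc : 2 * c = Fintype.card α)
    (hcT : c + 1 ≤ T) : c + 1 ≤ countFPP T r := by
  classical
  have h1 : ((range c).image (fun k => T - k)).card = c := by
    rw [card_image_of_injOn, card_range]
    intro x hx y hy hxy
    simp only [coe_range, Set.mem_Iio] at hx hy hxy
    omega
  obtain ⟨j, hj, hjc, hjT⟩ : ∃ j, FPP (r j) ∧ j ≤ T - c ∧ j < T := by
    by_cases hF : FPP (r (T - c))
    · by_cases hc0 : c = 0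
      · -- impossible only if card α = 0; use the empty type
        refine ⟨T - 1, ?_, by omega, by omega⟩
        exfalso
        subst hc0
        have : Fintype.card α = 0 := by omega
        have := Fintype.card_eq_zero_iff.1 this
        obtain ⟨x, _⟩ := hF id (fun _ _ h => h)
        exact isEmptyElim x
      · exact ⟨T - c, hF, le_rfl, by omega⟩
    · refine ⟨T - c - 1, ?_, by omega, by omega⟩
      apply fpp_before hr (i := T - c - 1) (by omega)
      · rw [show T - c - 1 + 1 = T - c by omega]; exact hF
      · omega
  have hnot : j ∉ (range c).image (fun k => T - k) := by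
    intro hmem
    rw [mem_image] at hmem
    obtain ⟨k, hk, hkj⟩ := hmem
    rw [mem_range] at hk
    omega
  calc c + 1 = (insert j ((range c).image (fun k => T - k))).card := by
        rw [card_insert_of_notMem hnot, h1]
    _ ≤ countFPP T r := by
      apply card_le_card
      intro i hi
      rw [mem_insert, mem_image] at hi
      rw [mem_filter, mem_range]
      rcases hi with rfl | ⟨k, hk, rfl⟩
      · exact ⟨by omega, hj⟩
      · rw [mem_range] at hk
        refine ⟨by omega, fpp_of_few hr (by omega) (by omega)⟩

end lower

/-! ### The construction -/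

section upper

/-- Two new points `inl false`, `inl true` are put below the points of the old set one pair after
the other, then the chain `q` is followed on the old set, then the two new points are related. The
pair `(inl a, inr b)` is added in step `e a b`. -/
def ext (m T : ℕ) (e : Bool → Fin m → ℕ) (q : ℕ → Fin m → Fin m → Prop) (j : ℕ) :
    Bool ⊕ Fin m → Bool ⊕ Fin m → Prop
  | .inl a, .inl b => a = b ∨ (2 * m + T < j ∧ a = false ∧ b = true)
  | .inl a, .inr b => e a b < j
  | .inr b, .inr b' => q (min (j - 2 * m) T) b b'
  | .inr _, .inl _ => False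

variable {m T : ℕ} {e : Bool → Fin m → ℕ} {q : ℕ → Fin m → Fin m → Prop}

lemma q_eq (hq : IsMaximalChain T q) {j : ℕ} (hj : j ≤ 2 * m) (x y : Fin m) :
    q (min (j - 2 * m) T) x y ↔ x = y := by
  rw [show min (j - 2 * m) T = 0 by omega, hq.start]

lemma ext_chain (hq : IsMaximalChain T q) (he : ∀ a b, e a b < 2 * m)
    (hs : ∀ j < 2 * m, ∃ a b, ∀ a' b', e a' b' = j ↔ a' = a ∧ b' = b) :
    IsMaximalChain (2 * m + T + 1) (ext m T e q) where
  order := by
    intro j hj
    have hqo := hq.order (min (j - 2 * m) T) (min_le_right _ _)
    refine ⟨?_, ?_, ?_⟩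
    · rintro (a | b)
      · exact Or.inl rfl
      · exact hqo.1 b
    · rintro (a | b) (a' | b') h1 h2
      · rcases h1 with h1 | h1
        · rw [h1]
        · rcases h2 with h2 | h2
          · rw [h2]
          · rw [h1.2.1] at h2; simp at h2
      · exact h2.elim
      · exact h1.elim
      · rw [hqo.2.1 _ _ h1 h2]
    · rintro (a | b) (a' | b') (a'' | b'') h1 h2
      · rcases h1 with h1 | h1
        · subst h1; exact h2
        · rcases h2 with h2 | h2
          · subst h2; exact Or.inr h1
          · rw [h1.2.2] at h2; simp at h2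
      · rcases h1 with h1 | h1
        · subst h1; exact h2
        · have := he a b''
          change e a b'' < j
          omega
      · exact h2.elim
      · change e a b' < j at h1
        change q (min (j - 2 * m) T) b' b'' at h2
        change e a b'' < j
        by_cases hj2 : j ≤ 2 * m
        · rw [q_eq hq hj2] at h2
          rw [← h2]; exact h1
        · have := he a b''; omega
      · exact h1.elim
      · exact h1.elim
      · exact h2.elim
      · exact hqo.2.2 _ _ _ h1 h2
  start := by
    rintro (a | b) (a' | b')
    · change (a = a' ∨ _) ↔ _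
      simp
    · change e a b' < 0 ↔ _
      simp
    · change False ↔ _
      simp
    · change q (min (0 - 2 * m) T) b b' ↔ _
      rw [q_eq hq (by omega)]
      simp
  step := by
    intro j hj
    by_cases h1 : j < 2 * m
    · obtain ⟨a, b, hab⟩ := hs j h1
      refine ⟨.inl a, .inr b, ?_, ?_⟩
      · change ¬ e a b < j
        have := (hab a b).2 ⟨rfl, rfl⟩
        omega
      · rintro (a' | b') (a'' | b'')
        · change (a' = a'' ∨ (2 * m + T < j + 1 ∧ _)) ↔ (a' = a'' ∨ (2 * m + T < j ∧ _)) ∨ _
          have e1 : ¬ 2 * m + T < j + 1 := by omega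
          have e2 : ¬ 2 * m + T < j := by omega
          simp [e1, e2]
        · change e a' b'' < j + 1 ↔ e a' b'' < j ∨ _
          rw [Order.lt_add_one_iff, le_iff_lt_or_eq, hab a' b'']
          simp
        · change False ↔ False ∨ _
          simp
        · change q (min (j + 1 - 2 * m) T) b' b'' ↔ q (min (j - 2 * m) T) b' b'' ∨ _
          rw [q_eq hq (by omega), q_eq hq (by omega)]
          simp
    · by_cases h2 : j < 2 * m + T
      · obtain ⟨a, b, hab, hst⟩ := hq.step (j - 2 * m) (by omega)
        refine ⟨.inr a, .inr b, ?_, ?_⟩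
        · change ¬ q (min (j - 2 * m) T) a b
          rw [min_eq_left (by omega)]
          exact hab
        · rintro (a' | b') (a'' | b'')
          · change (a' = a'' ∨ (2 * m + T < j + 1 ∧ _)) ↔ (a' = a'' ∨ (2 * m + T < j ∧ _)) ∨ _
            have e1 : ¬ 2 * m + T < j + 1 := by omega
            have e2 : ¬ 2 * m + T < j := by omega
            simp [e1, e2]
          · change e a' b'' < j + 1 ↔ e a' b'' < j ∨ _
            have := he a' b''
            have e1 : e a' b'' < j + 1 := by omega
            have e2 : e a' b'' < j := by omega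
            simp [e1, e2]
          · change False ↔ False ∨ _
            simp
          · change q (min (j + 1 - 2 * m) T) b' b'' ↔ q (min (j - 2 * m) T) b' b'' ∨ _
            rw [min_eq_left (by omega), min_eq_left (by omega),
              show j + 1 - 2 * m = j - 2 * m + 1 by omega, hst]
            simp
      · have hj3 : j = 2 * m + T := by omega
        subst hj3
        refine ⟨.inl false, .inl true, ?_, ?_⟩
        · change ¬ (false = true ∨ _)
          simp
        · rintro (a' | b') (a'' | b'')
          · change (a' = a'' ∨ (2 * m + T < 2 * m + T + 1 ∧ _)) ↔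
              (a' = a'' ∨ (2 * m + T < 2 * m + T ∧ _)) ∨ _
            simp
          · change e a' b'' < 2 * m + T + 1 ↔ e a' b'' < 2 * m + T ∨ _
            have := he a' b''
            have e1 : e a' b'' < 2 * m + T + 1 := by omega
            have e2 : e a' b'' < 2 * m + T := by omega
            simp [e1, e2]
          · change False ↔ False ∨ _
            simp
          · change q (min (2 * m + T + 1 - 2 * m) T) b' b'' ↔
              q (min (2 * m + T - 2 * m) T) b' b'' ∨ _
            rw [min_eq_right (by omega), min_eq_right (by omega)]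
            simp
  final := by
    rintro (a | b) (a' | b')
    · rcases a <;> rcases a' <;> simp [ext]
    · left
      change e a b' < _
      have := he a b'
      omega
    · right
      change e a' b < _
      have := he a' b
      omega
    · change q (min (2 * m + T + 1 - 2 * m) T) b b' ∨ q (min (2 * m + T + 1 - 2 * m) T) b' b
      rw [min_eq_right (by omega)]
      exact hq.final b b'

/-- The middle members lack the fixed point property if the old ones do. -/
lemma ext_middle {j : ℕ} (h1 : 2 * m ≤ j) (h2 : j ≤ 2 * m + T) (he : ∀ a b, e a b < 2 * m)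
    (hF : FPP (ext m T e q j)) : FPP (q (j - 2 * m)) := by
  intro g hg
  obtain ⟨x, hx⟩ := hF (fun x => match x with
    | .inl a => .inl (!a)
    | .inr b => .inr (g b)) (by
      rintro (a | b) (a' | b') h
      · rcases h with h | h
        · exact Or.inl (by rw [h])
        · omega
      · change e (!a) (g b') < j
        have := he (!a) (g b')
        omega
      · exact h.elim
      · change q (min (j - 2 * m) T) (g b) (g b')
        change q (min (j - 2 * m) T) b b' at h
        rw [min_eq_left (by omega)] at h ⊢
        exact hg _ _ h)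
  rcases x with a | b
  · simp at hx
  · exact ⟨b, by simpa using hx⟩

open Classical in
lemma count_ext (he : ∀ a b, e a b < 2 * m) :
    countFPP (2 * m + T + 1) (ext m T e q) ≤
      countFPP T q + 1 + ((range (2 * m)).filter (fun j => FPP (ext m T e q j))).card := by
  have hsub : (range (2 * m + T + 1 + 1)).filter (fun i => FPP (ext m T e q i)) ⊆
      (((range (T + 1)).filter (fun i => FPP (q i))).image (fun i => i + 2 * m) ∪
        {2 * m + T + 1}) ∪ (range (2 * m)).filter (fun j => FPP (ext m T e q j)) := by
    intro i hi
    rw [mem_filter, mem_range] at hi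
    rw [mem_union, mem_union, mem_image, mem_singleton, mem_filter, mem_range]
    by_cases h1 : i < 2 * m
    · exact Or.inr ⟨h1, hi.2⟩
    · by_cases h2 : i = 2 * m + T + 1
      · exact Or.inl (Or.inr h2)
      · refine Or.inl (Or.inl ⟨i - 2 * m, ?_, by omega⟩)
        rw [mem_filter, mem_range]
        exact ⟨by omega, ext_middle (by omega) (by omega) he hi.2⟩
  refine (card_le_card hsub).trans ((card_union_le _ _).trans ?_)
  refine Nat.add_le_add_right ((card_union_le _ _).trans ?_) _
  rw [card_singleton]
  exact Nat.add_le_add_right card_image_le _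

/-- An isolated point and another point: no fixed point property. -/
lemma not_fpp_isolated {α : Type} {s : α → α → Prop} (hs : ∀ x, s x x) (v w : α) (hvw : v ≠ w)
    (h1 : ∀ y, s v y → y = v) (h2 : ∀ y, s y v → y = v) : ¬ FPP s := by
  classical
  intro hF
  obtain ⟨x, hx⟩ := hF (fun x => if x = v then w else v) (by
    intro x y hxy
    by_cases hx : x = v
    · subst hx
      rw [h1 y hxy]
      simp only [if_true]
      exact hs _
    · by_cases hy : y = v
      · subst hy
        exact absurd (h2 x hxy) hx
      · rw [if_neg hx, if_neg hy]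
        exact hs _)
  have hx' : (if x = v then w else v) = x := hx
  split_ifs at hx' with h
  · exact hvw (h ▸ hx'.symm)
  · exact h hx'.symm

/-- Transfer along an equivalence. -/
lemma chain_equiv {α β : Type} (f : β ≃ α) {N : ℕ} {r : ℕ → α → α → Prop}
    (hr : IsMaximalChain N r) : IsMaximalChain N (fun i x y => r i (f x) (f y)) where
  order := fun i hi => ⟨fun x => (hr.order i hi).1 _,
    fun x y h1 h2 => f.injective ((hr.order i hi).2.1 _ _ h1 h2),
    fun x y z h1 h2 => (hr.order i hi).2.2 _ _ _ h1 h2⟩
  start := fun x y => (hr.start _ _).trans f.injective.eq_iff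
  step := by
    intro i hi
    obtain ⟨a, b, hab, hs⟩ := hr.step i hi
    refine ⟨f.symm a, f.symm b, by simpa using hab, fun x y => ?_⟩
    rw [hs, Equiv.eq_symm_apply, Equiv.eq_symm_apply]
  final := fun x y => hr.final _ _

lemma fpp_equiv {α β : Type} (f : β ≃ α) {r : α → α → Prop}
    (h : FPP (fun x y => r (f x) (f y))) : FPP r := by
  intro g hg
  obtain ⟨x, hx⟩ := h (fun x => f.symm (g (f x))) (by
    intro x y hxy
    simpa using hg _ _ hxy)
  refine ⟨f x, ?_⟩
  have : f (f.symm (g (f x))) = f x := congrArg f hx
  simpa using this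

lemma count_equiv {α β : Type} (f : β ≃ α) {N : ℕ} {r : ℕ → α → α → Prop} :
    countFPP N (fun i x y => r i (f x) (f y)) ≤ countFPP N r := by
  classical
  apply card_le_card
  intro i hi
  rw [mem_filter] at hi ⊢
  exact ⟨hi.1, fpp_equiv f hi.2⟩

/-- The order in which the pairs are added, for `m ≥ 2`. -/
def e2 (m : ℕ) (a : Bool) (b : Fin m) : ℕ :=
  if b.val = 0 then (if a then 3 else 0)
  else if b.val = 1 then (if a then 1 else 2)
  else 2 * b.val + (if a then 1 else 0)

lemma e2_lt {m : ℕ} (hm : 2 ≤ m) (a : Bool) (b : Fin m) : e2 m a b < 2 * m := by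
  have := b.2
  unfold e2
  cases a <;> simp only [if_true, Bool.false_eq_true, if_false] <;> split_ifs <;> omega

lemma e2_surj {m : ℕ} (hm : 2 ≤ m) : ∀ j < 2 * m, ∃ a b, ∀ a' b',
    e2 m a' b' = j ↔ a' = a ∧ b' = b := by
  intro j hj
  have key : ∀ (a : Bool) (k : ℕ) (hk : k < m) , (∀ (a' : Bool) (b' : Fin m),
      e2 m a' b' = j ↔ a' = a ∧ b'.val = k) → ∃ a b, ∀ a' b', e2 m a' b' = j ↔ a' = a ∧ b' = b := by
    intro a k hk h
    refine ⟨a, ⟨k, hk⟩, fun a' b' => ?_⟩
    rw [h, Fin.ext_iff]
  rcases Nat.lt_or_ge j 4 with h4 | h4
  · interval_cases j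
    · refine key false 0 (by omega) (fun a' b' => ?_)
      cases a' <;> by_cases h0 : b'.val = 0 <;> by_cases h1 : b'.val = 1 <;>
        simp [e2, h0, h1] <;> omega
    · refine key true 1 (by omega) (fun a' b' => ?_)
      cases a' <;> by_cases h0 : b'.val = 0 <;> by_cases h1 : b'.val = 1 <;>
        simp [e2, h0, h1] <;> omega
    · refine key false 1 (by omega) (fun a' b' => ?_)
      cases a' <;> by_cases h0 : b'.val = 0 <;> by_cases h1 : b'.val = 1 <;>
        simp [e2, h0, h1] <;> omega
    · refine key true 0 (by omega) (fun a' b' => ?_)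
      cases a' <;> by_cases h0 : b'.val = 0 <;> by_cases h1 : b'.val = 1 <;>
        simp [e2, h0, h1] <;> omega
  · rcases Nat.even_or_odd' j with ⟨k, rfl | rfl⟩
    · refine key false k (by omega) (fun a' b' => ?_)
      cases a' <;> by_cases h0 : b'.val = 0 <;> by_cases h1 : b'.val = 1 <;>
        simp [e2, h0, h1] <;> omega
    · refine key true k (by omega) (fun a' b' => ?_)
      cases a' <;> by_cases h0 : b'.val = 0 <;> by_cases h1 : b'.val = 1 <;>
        simp [e2, h0, h1] <;> omega

/-- For `m ≥ 3` the first members lack the fixed point property. -/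
lemma first_members {m T : ℕ} (hm : 3 ≤ m) {q : ℕ → Fin m → Fin m → Prop}
    (hq : IsMaximalChain T q) {j : ℕ} (hj : j < 2 * m) : ¬ FPP (ext m T (e2 m) q j) := by
  have hrefl : ∀ x, ext m T (e2 m) q j x x :=
    ((ext_chain hq (e2_lt (by omega)) (e2_surj (by omega))).order j (by omega)).1
  rcases Nat.lt_or_ge j 4 with h4 | h4
  · refine not_fpp_isolated hrefl (.inr ⟨2, by omega⟩) (.inl false) (by simp) ?_ ?_
    · rintro (a | b) h
      · exact h.elim
      · change q (min (j - 2 * m) T) _ _ at h
        rw [q_eq hq (by omega)] at h
        rw [h]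
    · rintro (a | b) h
      · change e2 m a _ < j at h
        exfalso
        unfold e2 at h
        simp only at h
        norm_num at h
        omega
      · change q (min (j - 2 * m) T) _ _ at h
        rw [q_eq hq (by omega)] at h
        rw [h]
  · intro hF
    obtain ⟨x, hx⟩ := hF (fun x => match x with
      | .inl a => .inl (!a)
      | .inr b => if b.val = 0 then .inr ⟨1, by omega⟩ else .inr ⟨0, by omega⟩) (by
        rintro (a | b) (a' | b') h
        · rcases h with h | h
          · exact Or.inl (by rw [h])
          · omega
        · simp only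
          split_ifs
          · change e2 m _ _ < j
            unfold e2
            simp only
            cases a <;> simp <;> omega
          · change e2 m _ _ < j
            unfold e2
            simp only
            cases a <;> simp <;> omega
        · exact h.elim
        · change q (min (j - 2 * m) T) _ _ at h
          rw [q_eq hq (by omega)] at h
          subst h
          exact hrefl _)
    rcases x with a | b
    · simp at hx
    · simp only at hx
      split_ifs at hx with h0
      · have := Fin.ext_iff.1 (Sum.inr.inj hx)
        simp only at this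
        omega
      · have := Fin.ext_iff.1 (Sum.inr.inj hx)
        simp only at this
        omega

/-- The equivalence used to label the extended set. -/
def lab (m : ℕ) : Fin (m + 2) ≃ Bool ⊕ Fin m :=
  (finCongr (Nat.add_comm m 2)).trans (finSumFinEquiv.symm.trans
    (Equiv.sumCongr finTwoEquiv (Equiv.refl _)))

lemma choose_step (m : ℕ) : (m + 2).choose 2 = 2 * m + m.choose 2 + 1 := by
  rw [Nat.choose_succ_succ' (m + 1) 1, Nat.choose_succ_succ' m 1, Nat.choose_one_right,
    Nat.choose_one_right]
  ring

/-- From a maximal chain on `m` points to one on `m + 2` points. -/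
lemma extend {m c : ℕ} (e : Bool → Fin m → ℕ) (he : ∀ a b, e a b < 2 * m)
    (hs : ∀ j < 2 * m, ∃ a b, ∀ a' b', e a' b' = j ↔ a' = a ∧ b' = b)
    {q : ℕ → Fin m → Fin m → Prop} (hq : IsMaximalChain (m.choose 2) q)
    (k : ℕ) (hk : by classical exact
      ((range (2 * m)).filter (fun j => FPP (ext m (m.choose 2) e q j))).card ≤ k)
    (hc : countFPP (m.choose 2) q ≤ c) :
    ∃ r : ℕ → Fin (m + 2) → Fin (m + 2) → Prop, IsMaximalChain ((m + 2).choose 2) r ∧
      countFPP ((m + 2).choose 2) r ≤ c + 1 + k := by
  refine ⟨fun i x y => ext m (m.choose 2) e q i (lab m x) (lab m y), ?_, ?_⟩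
  · rw [choose_step]
    exact chain_equiv (lab m) (ext_chain hq he hs)
  · rw [choose_step]
    refine (count_equiv (lab m)).trans ((count_ext he).trans ?_)
    exact Nat.add_le_add (Nat.add_le_add_right hc 1) hk

/-- The chain on one point. -/
lemma chain_one : IsMaximalChain (α := Fin 1) ((1 : ℕ).choose 2) (fun _ x y => x = y) where
  order := fun i _ => ⟨fun _ => rfl, fun _ _ h _ => h, fun _ _ _ h1 h2 => h1.trans h2⟩
  start := fun _ _ => Iff.rfl
  step := fun i hi => by simp at hi
  final := fun x y => Or.inl (Subsingleton.elim _ _)

/-- The chain on two points. -/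
lemma chain_two : IsMaximalChain (α := Fin 2) ((2 : ℕ).choose 2)
    (fun i x y => x = y ∨ (0 < i ∧ x = 0 ∧ y = 1)) where
  order := by
    intro i _
    refine ⟨fun _ => Or.inl rfl, ?_, ?_⟩
    · rintro x y (h | h) (h' | h')
      · exact h
      · exact h
      · exact h'.symm
      · rw [h.2.1] at h'
        simp at h'
    · rintro x y z (h | h) (h' | h')
      · exact Or.inl (h.trans h')
      · subst h; exact Or.inr h'
      · subst h'; exact Or.inr h
      · rw [h.2.2] at h'
        simp at h'
  start := by intro x y; simp
  step := by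
    intro i hi
    have hi0 : i = 0 := by
      have : (2 : ℕ).choose 2 = 1 := rfl
      omega
    subst hi0
    exact ⟨0, 1, by simp, fun x y => by simp⟩
  final := by
    intro x y
    have : (2 : ℕ).choose 2 = 1 := rfl
    rw [this]
    fin_cases x <;> fin_cases y <;> simp

lemma count_two : countFPP (α := Fin 2) ((2 : ℕ).choose 2)
    (fun i x y => x = y ∨ (0 < i ∧ x = 0 ∧ y = 1)) ≤ 1 := by
  classical
  have h0 : ¬ FPP (fun x y : Fin 2 => x = y ∨ (0 < 0 ∧ x = 0 ∧ y = 1)) := by
    intro hF
    obtain ⟨x, hx⟩ := hF (fun x => 1 - x) (by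
      rintro x y (h | h)
      · subst h; exact Or.inl rfl
      · exact absurd h.1 (lt_irrefl 0))
    fin_cases x <;> simp at hx
  have : (range ((2 : ℕ).choose 2 + 1)).filter (fun i => FPP (fun x y : Fin 2 =>
      x = y ∨ (0 < i ∧ x = 0 ∧ y = 1))) ⊆ {1} := by
    intro i hi
    rw [mem_filter, mem_range] at hi
    rw [mem_singleton]
    have h2 : (2 : ℕ).choose 2 = 1 := rfl
    rw [h2] at hi
    by_contra hne
    have hi0 : i = 0 := by omega
    subst hi0
    exact h0 hi.2
  exact (card_le_card this).trans (by simp)

lemma upper (n : ℕ) (hn : 3 ≤ n) : ∃ r : ℕ → Fin n → Fin n → Prop,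
    IsMaximalChain (n.choose 2) r ∧ countFPP (n.choose 2) r ≤ n / 2 + 1 := by
  classical
  induction n using Nat.strong_induction_on with
  | _ n ih =>
    rcases Nat.lt_or_ge n 5 with h5 | h5
    · interval_cases n
      · -- three points
        have h := extend (m := 1) (c := 1) (fun a _ => if a then 1 else 0)
          (by intro a b; cases a <;> simp) (by
            intro j hj
            interval_cases j
            · exact ⟨false, 0, fun a' b' => by
                have : b' = 0 := Subsingleton.elim _ _
                cases a' <;> simp [this]⟩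
            · exact ⟨true, 0, fun a' b' => by
                have : b' = 0 := Subsingleton.elim _ _
                cases a' <;> simp [this]⟩) chain_one 0 (by
            rw [Nat.le_zero, card_eq_zero, filter_eq_empty_iff]
            intro j hj
            rw [mem_range] at hj
            refine not_fpp_isolated ?_ (.inl true) (.inr 0) (by simp) ?_ ?_
            · rintro (a | b)
              · exact Or.inl rfl
              · exact rfl
            · rintro (a | b) h
              · rcases h with h | h
                · rw [h]
                · simp at h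
              · change (if true then 1 else 0) < j at h
                simp at h
                omega
            · rintro (a | b) h
              · rcases h with h | h
                · rw [h]
                · have := h.1
                  omega
              · exact h.elim) (by
            unfold countFPP
            refine (card_filter_le _ _).trans ?_
            simp)
        simpa using h
      · -- four points
        have h := extend (m := 2) (c := 1) (e2 2) (e2_lt le_rfl) (e2_surj le_rfl) chain_two 1 (by
            have hsub : (range (2 * 2)).filter (fun j => FPP (ext 2 ((2 : ℕ).choose 2) (e2 2)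
                (fun i x y => x = y ∨ (0 < i ∧ x = 0 ∧ y = 1)) j)) ⊆ {3} := by
              intro j hj
              rw [mem_filter, mem_range] at hj
              rw [mem_singleton]
              by_contra hne
              have hj2 : j ≤ 2 := by omega
              obtain ⟨x, hx⟩ := hj.2 (fun x => match x with
                | .inl false => .inl true
                | .inl true => .inl false
                | .inr b => if b = 0 then .inl true else .inl false) (by
                  rintro (a | b) (a' | b') h
                  · rcases h with h | h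
                    · subst h; cases a <;> exact Or.inl rfl
                    · omega
                  · change e2 2 a b' < j at h
                    unfold e2 at h
                    cases a <;> fin_cases b' <;> simp at h ⊢ <;>
                      first | omega | exact Or.inl rfl
                  · exact h.elim
                  · change (b = b' ∨ (0 < min (j - 2 * 2) _ ∧ b = 0 ∧ b' = 1)) at h
                    rcases h with h | h
                    · subst h
                      simp only
                      split_ifs <;> exact Or.inl rfl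
                    · omega)
              rcases x with a | b
              · cases a <;> simp at hx
              · simp only at hx
                split_ifs at hx
            exact (card_le_card hsub).trans (by simp)) count_two
        simpa using h
    · obtain ⟨m, rfl⟩ : ∃ m, n = m + 2 := ⟨n - 2, by omega⟩
      obtain ⟨q, hq, hc⟩ := ih m (by omega) (by omega)
      have h := extend (e2 m) (e2_lt (by omega)) (e2_surj (by omega)) hq 0 (by
        rw [Nat.le_zero, card_eq_zero, filter_eq_empty_iff]
        intro j hj
        rw [mem_range] at hj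
        exact first_members (by omega) hq hj) hc
      obtain ⟨r, hr, hcr⟩ := h
      exact ⟨r, hr, by omega⟩

end upper

/-- **Result.** For every `n ≥ 1`, the smallest number of members with the fixed point property in
a maximal chain of order relations on an `n`-element set is `⌊n/2⌋ + 1` if `n ≠ 2`, and `1` if
`n = 2`. -/
theorem result (n : ℕ) (hn : 1 ≤ n) :
    IsLeast {k : ℕ | ∃ r : ℕ → Fin n → Fin n → Prop,
      IsMaximalChain (n.choose 2) r ∧ k = countFPP (n.choose 2) r}
      (if n = 2 then 1 else n / 2 + 1) := by
  have lower : ∀ r : ℕ → Fin n → Fin n → Prop, IsMaximalChain (n.choose 2) r →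
      (if n = 2 then 1 else n / 2 + 1) ≤ countFPP (n.choose 2) r := by
    intro r hr
    have hT : n.choose 2 = n * (n - 1) / 2 := Nat.choose_two_right n
    split_ifs with h2
    · subst h2
      exact lower_basic hr 1 (by simp) (by omega)
    · rcases Nat.even_or_odd' n with ⟨c, hc | hc⟩
      · have hn4 : 4 ≤ n := by omega
        have hge : c + 1 ≤ n.choose 2 := by
          rw [hT, Nat.le_div_iff_mul_le (by norm_num)]
          have : 3 ≤ n - 1 := by omega
          have : n * 3 ≤ n * (n - 1) := Nat.mul_le_mul_left _ this
          omega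
        have := lower_even hr c (by rw [Fintype.card_fin]; omega) hge
        omega
      · have := lower_basic hr (c + 1) (by rw [Fintype.card_fin]; omega) (by
          rw [hT]
          suffices h : c ≤ n * (n - 1) / 2 by omega
          rw [Nat.le_div_iff_mul_le (by norm_num)]
          subst hc
          have : 2 * c + 1 - 1 = 2 * c := by omega
          rw [this]
          nlinarith)
        omega
  suffices hup : ∃ r : ℕ → Fin n → Fin n → Prop, IsMaximalChain (n.choose 2) r ∧
      countFPP (n.choose 2) r ≤ (if n = 2 then 1 else n / 2 + 1) by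
    obtain ⟨r, hr, hc⟩ := hup
    refine ⟨⟨r, hr, le_antisymm (lower r hr) hc⟩, ?_⟩
    rintro k ⟨s, hs, rfl⟩
    exact lower s hs
  rcases Nat.lt_or_ge n 3 with h3 | h3
  · interval_cases n
    · refine ⟨_, chain_one, ?_⟩
      classical
      unfold countFPP
      refine (card_filter_le _ _).trans ?_
      simp
    · exact ⟨_, chain_two, count_two⟩
  · rw [if_neg (by omega)]
    exact upper n h3

end Pool.Agent.Results.MP_eb30e1_co.FewestMembers
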